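import Mathlib

namespace Pool.Agent.Results.MP_63137b_co.Counter

open MvPolynomial Matrix

variable {K : Type} [Field K] {l : ℕ} {ι : Type}

/-- the linear form with coefficient vector a -/
noncomputable def form (a : Fin l → K) : MvPolynomial (Fin l) K := ∑ j, C (a j) * X j

/-- the derivation with coefficient vector φ applied to f -/
noncomputable def app (φ : Fin l → MvPolynomial (Fin l) K) (f : MvPolynomial (Fin l) K) :
    MvPolynomial (Fin l) K := ∑ j, φ j * pderiv j f

/-- D(A, m) for the arrangement with forms a H and multiplicity m -/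
def D (a : ι → Fin l → K) (m : ι → ℕ) : Set (Fin l → MvPolynomial (Fin l) K) :=
  {θ | ∀ H, form (a H) ^ m H ∣ app θ (form (a H))}

/-- θ is a universal derivation for (A, μ): homogeneous, in D(A, μ), and φ ↦ ∇_φ θ maps Der
bijectively onto D(A, μ - 1). -/
def IsUniv (a : ι → Fin l → K) (μ : ι → ℕ) (θ : Fin l → MvPolynomial (Fin l) K) : Prop :=
  (∃ e, ∀ i, (θ i).IsHomogeneous e) ∧ θ ∈ D a μ ∧
    Set.BijOn (fun φ i => app φ (θ i)) Set.univ (D a fun H => μ H - 1)

/-- the arrangement x, y, z, x - y, x - z, y - z -/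
def arr (K : Type) [Field K] : Fin 6 → Fin 3 → K :=
  ![![1, 0, 0], ![0, 1, 0], ![0, 0, 1], ![1, -1, 0], ![1, 0, -1], ![0, 1, -1]]

/-- multiplicity 2 on x, y, z and 1 on the differences -/
def mu : Fin 6 → ℕ := ![2, 2, 2, 1, 1, 1]

/-- the flat X = {z = 0} ∩ {x - y = 0} -/
def flat (K : Type) [Field K] : Set (Fin 3 → K) := {v | arr K 2 ⬝ᵥ v = 0 ∧ arr K 3 ⬝ᵥ v = 0}

/-- the hyperplanes containing X -/
abbrev Loc (K : Type) [Field K] : Type := {H : Fin 6 // ∀ v ∈ flat K, arr K H ⬝ᵥ v = 0}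

/-- π identifies V / X with K^r, and β H is the form of H / X in these coordinates -/
def IsQuot {r : ℕ} (π : Matrix (Fin r) (Fin 3) K) (β : Loc K → Fin r → K) : Prop :=
  Function.Surjective π.mulVec ∧ (∀ v, π *ᵥ v = 0 ↔ v ∈ flat K) ∧ ∀ H, β H ᵥ* π = arr K H.1

theorem pd_form (a : Fin l → K) (j : Fin l) : pderiv j (form a) = C (a j) := by
  classical
  simp [form, pderiv_X, Pi.single_apply]

theorem app_form (φ : Fin l → MvPolynomial (Fin l) K) (a : Fin l → K) :
    app φ (form a) = ∑ j, C (a j) * φ j := by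
  simp [app, pd_form, mul_comm]

theorem form_hom (a : Fin l → K) : (form a).IsHomogeneous 1 :=
  IsHomogeneous.sum _ _ _ fun j _ => (isHomogeneous_X K j).C_mul _

theorem form_ne {a : Fin l → K} (h : a ≠ 0) : form a ≠ 0 := by
  intro e
  apply h
  funext j
  have := pd_form a j
  rw [e, map_zero] at this
  exact C_eq_zero.1 this.symm

theorem no_univ (a : ι → Fin l → K) (μ : ι → ℕ) (H0 : ι) (h2 : μ H0 = 2)
    (h1 : ∀ H, H ≠ H0 → μ H = 1) (h0 : a H0 ≠ 0) (c : Fin l → K) (hc : c ≠ 0)
    (hac : a H0 ⬝ᵥ c = 0) (θ : Fin l → MvPolynomial (Fin l) K) : ¬ IsUniv a μ θ := by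
  rintro ⟨⟨e, he⟩, hθ, hb⟩
  have mem : ∀ ψ : Fin l → MvPolynomial (Fin l) K, form (a H0) ∣ app ψ (form (a H0)) →
      ∃ φ, ∀ i, app φ (θ i) = ψ i := by
    intro ψ h
    obtain ⟨φ, -, hφ⟩ := hb.surjOn (a := ψ) (by
      intro H
      by_cases hH : H = H0
      · subst hH
        simpa [h2] using h
      · simp [h1 H hH])
    exact ⟨φ, congrFun hφ⟩
  obtain ⟨φ, hφ⟩ := mem (fun i => C (c i)) (by
    rw [app_form]
    simp only [← map_mul, ← map_sum]
    rw [show ∑ j, a H0 j * c j = 0 from hac, map_zero]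
    exact dvd_zero _)
  have e1 : e = 1 := by
    by_contra hne
    apply hc
    funext i
    have := congrArg constantCoeff (hφ i)
    rw [constantCoeff_C, app, map_sum] at this
    rw [← this]
    refine Finset.sum_eq_zero fun j _ => ?_
    rcases e with _ | e
    · rw [totalDegree_eq_zero_iff_eq_C.1 ((totalDegree_zero_iff_isHomogeneous _).2 (he i))]
      simp
    · have : constantCoeff (pderiv j (θ i)) = 0 :=
        (he i).pderiv.coeff_eq_zero (by simp; omega)
      rw [map_mul, this, mul_zero]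
  subst e1
  have z : app θ (form (a H0)) = 0 := by
    by_contra hz
    have hh : (app θ (form (a H0))).IsHomogeneous 1 := by
      rw [app_form]
      exact IsHomogeneous.sum _ _ _ fun j _ => (he j).C_mul _
    have d1 := totalDegree_le_of_dvd_of_isDomain (hθ H0) hz
    rw [hh.totalDegree hz, h2,
      ((form_hom (a H0)).pow 2).totalDegree (pow_ne_zero _ (form_ne h0))] at d1
    omega
  obtain ⟨ψ, hψ⟩ := mem X (by rw [app_form]; exact dvd_rfl)
  apply form_ne h0
  have : form (a H0) = app ψ (app θ (form (a H0))) := by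
    rw [app_form, form]
    simp only [← hψ, app, map_sum, Finset.mul_sum, Derivation.leibniz, pderiv_C, smul_zero,
      add_zero, smul_eq_mul]
    rw [Finset.sum_comm]
    exact Finset.sum_congr rfl fun i _ => Finset.sum_congr rfl fun j _ => by ring
  rw [this, z, app]
  simp

theorem result (K : Type) [Field K] [CharZero K] :
    (∃ θ, IsUniv (arr K) mu θ) ∧
    (∃ (π : Matrix (Fin 2) (Fin 3) K) (β : Loc K → Fin 2 → K), IsQuot π β) ∧
    ∀ (r : ℕ) (π : Matrix (Fin r) (Fin 3) K) (β : Loc K → Fin r → K), IsQuot π β →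
      ¬ ∃ θ, IsUniv β (fun H => mu H.1) θ := by
  have loc : ∀ H : Loc K, H.1 = 2 ∨ H.1 = 3 := by
    rintro ⟨H, hH⟩
    have := hH ![1, 1, 0] (by simp [flat, arr, dotProduct, Fin.sum_univ_three])
    fin_cases H <;> simp [arr, dotProduct, Fin.sum_univ_three] at this ⊢
  refine ⟨⟨fun i => X i ^ 2, ⟨2, fun i => isHomogeneous_X_pow _ _⟩, ?_, ?_⟩, ?_, ?_⟩
  · intro H
    rw [app_form]
    fin_cases H <;> simp [form, arr, mu, Fin.sum_univ_three]
    · exact ⟨X 0 + X 1, by ring⟩
    · exact ⟨X 0 + X 2, by ring⟩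
    · exact ⟨X 1 + X 2, by ring⟩
  · have ap : ∀ (φ : Fin 3 → MvPolynomial (Fin 3) K) (i : Fin 3),
        app φ (X i ^ 2) = X i * (2 * φ i) := by
      intro φ i
      fin_cases i <;> simp [app, Fin.sum_univ_three, pderiv_X] <;> ring
    have md : ∀ ψ : Fin 3 → MvPolynomial (Fin 3) K,
        ψ ∈ D (arr K) (fun H => mu H - 1) ↔ ∀ i, X i ∣ ψ i := by
      intro ψ
      simp only [D, Set.mem_setOf_eq, app_form, Fin.forall_fin_succ]
      simp [form, arr, mu, Fin.sum_univ_three]
    have two : (2 : MvPolynomial (Fin 3) K) * C 2⁻¹ = 1 := by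
      rw [← map_ofNat C 2, ← map_mul, mul_inv_cancel₀ two_ne_zero, map_one]
    refine ⟨fun φ _ => (md _).2 fun i => ⟨_, ap φ i⟩, fun φ _ ψ _ h => ?_, fun ψ h => ?_⟩
    · funext i
      have := congrFun h i
      simp only [ap] at this
      have h2 := mul_left_cancel₀ (X_ne_zero i) this
      linear_combination C 2⁻¹ * h2 - (φ i - ψ i) * two
    · choose c hc using (md ψ).1 h
      refine ⟨fun i => C 2⁻¹ * c i, trivial, ?_⟩
      funext i
      simp only [ap, hc i]
      linear_combination X i * c i * two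
  · refine ⟨!![0, 0, 1; 1, -1, 0], fun H => ![arr K H.1 2, arr K H.1 0], ?_, ?_, ?_⟩
    · intro w
      refine ⟨![w 1, 0, w 0], ?_⟩
      ext i
      fin_cases i <;> simp [mulVec, dotProduct, Fin.sum_univ_three]
    · intro v
      simp [flat, arr, funext_iff, Fin.forall_fin_two, mulVec, dotProduct, Fin.sum_univ_three]
    · intro H
      ext j
      rcases loc H with h | h <;> fin_cases j <;> simp [h, arr, vecMul, dotProduct]
  · rintro r π β ⟨-, hk, hβ⟩ ⟨θ, hθ⟩
    let H0 : Loc K := ⟨2, fun v hv => hv.1⟩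
    refine no_univ β _ H0 rfl ?_ ?_ (π *ᵥ ![1, 0, 0]) ?_ ?_ θ hθ
    · intro H hH
      rcases loc H with h | h
      · exact absurd (Subtype.ext h) hH
      · simp [h, mu]
    · intro h
      have := congrFun (hβ H0) 2
      rw [h] at this
      simp [H0, arr] at this
    · intro h
      have := (hk _).1 h
      simp [flat, arr] at this
    · rw [dotProduct_mulVec, hβ]
      simp [H0, arr]

end Pool.Agent.Results.MP_63137b_co.Counter
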